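import Pool.Agent.Helper80.CB.Stmts

/-! # Module A_CST: assembly of Chevalley's theorem -/

namespace Pool.Agent.Helper80.CB

open Matrix MvPolynomial

theorem st_CST (hF : ST_CSTF) (hG : ST_CSTG) (hI : ST_CSTI) : ST_CST := by
  intro r T _ _ c W hW hR
  obtain ⟨m, f, d, h1, h2, h3, h4, h5⟩ := hF r T c W
  exact ⟨m, f, d, h1, h2, h3, hI r T c W hW hR m f d h1 h2 h3 h4 h5,
    hG r T c W hW m f d h1 h2 h3 h4⟩

end Pool.Agent.Helper80.CB

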