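import Pool.Agent.Helper41.CB.A_SUBST

/-! # Module A_CSTF: minimal generators of the Hilbert ideal -/

namespace Pool.Agent.Helper80.CB

open Matrix MvPolynomial

theorem st_CSTF : ST_CSTF := by
  classical
  intro r T _ _ c W
  let S : Set (MvPolynomial (Fin r) ℝ) := {P | WInv c W P ∧ ∃ d : ℕ, 0 < d ∧ P.IsHomogeneous d}
  have hex : ∃ m : ℕ, ∃ t : Finset (MvPolynomial (Fin r) ℝ), t.card = m ∧
      (t : Set (MvPolynomial (Fin r) ℝ)) ⊆ S ∧
      Ideal.span S = Ideal.span (t : Set (MvPolynomial (Fin r) ℝ)) := by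
    obtain ⟨t, htS, ht⟩ := (Submodule.fg_span_iff_fg_span_finset_subset S).mp
      (IsNoetherian.noetherian (Submodule.span (MvPolynomial (Fin r) ℝ) S))
    exact ⟨t.card, t, rfl, htS, ht⟩
  obtain ⟨t, hcard, htS, hspan⟩ := Nat.find_spec hex
  have hmin := fun k hk => Nat.find_min hex (m := k) hk
  generalize Nat.find hex = m at hcard hmin
  subst hcard
  let e := t.equivFin
  let f : Fin t.card → MvPolynomial (Fin r) ℝ := fun i => (e.symm i : MvPolynomial (Fin r) ℝ)
  have hfS : ∀ i, f i ∈ S := fun i => htS (e.symm i).2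
  have hfr : Set.range f = (t : Set (MvPolynomial (Fin r) ℝ)) := by
    ext P
    constructor
    · rintro ⟨i, rfl⟩
      exact (e.symm i).2
    · intro hP
      exact ⟨e ⟨P, hP⟩, by simp [f]⟩
  refine ⟨t.card, f, fun i => (hfS i).2.choose, fun i => (hfS i).2.choose_spec.2,
    fun i => (hfS i).2.choose_spec.1, fun i => (hfS i).1, ?_, ?_⟩
  · rw [hfr]
    exact hspan
  · intro i hi
    have hit : f i ∈ t := (e.symm i).2
    refine hmin (t.erase (f i)).card (Finset.card_erase_lt_of_mem hit)
      ⟨t.erase (f i), rfl, ?_, ?_⟩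
    · exact (Finset.coe_subset.mpr (Finset.erase_subset _ _)).trans htS
    · rw [hspan]
      apply le_antisymm
      · rw [Ideal.span_le]
        intro P hP
        by_cases hPi : P = f i
        · rw [hPi]
          have h1 : f '' {j | j ≠ i} ⊆ ((t.erase (f i) : Finset (MvPolynomial (Fin r) ℝ)) :
              Set (MvPolynomial (Fin r) ℝ)) := by
            rintro _ ⟨j, hj, rfl⟩
            rw [Finset.mem_coe, Finset.mem_erase]
            refine ⟨fun h => hj ?_, (e.symm j).2⟩
            exact e.symm.injective (Subtype.ext h)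
          exact Ideal.span_mono h1 hi
        · exact Ideal.subset_span (by
            rw [Finset.mem_coe, Finset.mem_erase]
            exact ⟨hPi, hP⟩)
      · exact Ideal.span_mono (Finset.coe_subset.mpr (Finset.erase_subset _ _))

end Pool.Agent.Helper80.CB

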