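import Pool.Agent.Helper41.CB.A_SUBST

/-! # Module A_CSTG: generators of the Hilbert ideal generate the invariants -/

namespace Pool.Agent.Helper80.CB

open Matrix MvPolynomial

theorem st_CSTG (hREYN : ST_REYN) : ST_CSTG := by
  classical
  intro r T _ _ c W hW m f d hfd hd hfW hspan
  obtain ⟨ρ, h1, h2, h3, -, -⟩ := hREYN r T c W hW
  have key : ∀ k : ℕ, ∀ P, WInv c W P → P.IsHomogeneous k →
      P ∈ Algebra.adjoin ℝ (Set.range f) := by
    intro k
    induction k using Nat.strong_induction_on with
    | _ k ih =>
      intro P hP hPk
      rcases Nat.eq_zero_or_pos k with h0 | h0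
      · subst h0
        have h1 : P.totalDegree = 0 := Nat.le_zero.mp hPk.totalDegree_le
        rw [totalDegree_eq_zero_iff_eq_C.mp h1]
        exact Subalgebra.algebraMap_mem _ _
      · have hmem : P ∈ Ideal.span (Set.range f) := by
          rw [← hspan]
          exact Ideal.subset_span ⟨hP, k, h0, hPk⟩
        obtain ⟨a, ha⟩ := (Ideal.mem_span_range_iff_exists_fun (R := MvPolynomial (Fin r) ℝ)).mp
          hmem
        have h4 : P = ∑ i, homogeneousComponent k (ρ (a i) * f i) := by
          rw [← map_sum, ← homogeneousComponent_eq_self hPk]
          congr 1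
          conv_lhs => rw [← h2 P hP, ← ha]
          rw [map_sum]
          refine Finset.sum_congr rfl fun i _ => ?_
          rw [mul_comm, h3 _ _ (hfW i), mul_comm]
        rw [h4]
        refine Subalgebra.sum_mem _ fun i _ => ?_
        have h5 : homogeneousComponent k (ρ (a i) * f i) =
            ∑ j ∈ Finset.range ((ρ (a i)).totalDegree + 1),
              if k = j + d i then homogeneousComponent j (ρ (a i)) * f i else 0 := by
          conv_lhs => rw [← sum_homogeneousComponent (ρ (a i))]
          rw [Finset.sum_mul, map_sum]
          refine Finset.sum_congr rfl fun j _ => ?_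
          exact homogeneousComponent_of_mem
            ((homogeneousComponent_isHomogeneous j (ρ (a i))).mul (hfd i))
        rw [h5]
        refine Subalgebra.sum_mem _ fun j _ => ?_
        split_ifs with hj
        · have h6 := hd i
          exact Subalgebra.mul_mem _ (ih j (by omega) _ (SUBST_inv_comp c (h1 (a i)) j)
            (homogeneousComponent_isHomogeneous j (ρ (a i))))
            (Algebra.subset_adjoin (Set.mem_range_self i))
        · exact Subalgebra.zero_mem _
  intro P hP
  rw [← sum_homogeneousComponent P]
  exact Subalgebra.sum_mem _ fun i _ => key i _ (SUBST_inv_comp c hP i)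
    (homogeneousComponent_isHomogeneous i P)

end Pool.Agent.Helper80.CB

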