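import Pool.Agent.Helper41.CB.A_SUBST

/-! # Module A_ORB: a complex point with real invariants is conjugate to its conjugate -/

namespace Pool.Agent.Helper80.CB

open Matrix MvPolynomial

section ORB
variable {r : ℕ} {T : Type} [AddCommGroup T] [Module ℝ T] (c : Module.Basis (Fin r) ℝ T)

/-- The action of `w` on complex points. -/
noncomputable def ORB_mv (w : T →ₗ[ℝ] T) (τ : Fin r → ℂ) : Fin r → ℂ :=
  fun i => ∑ s, ((c.repr (w (c s)) i : ℝ) : ℂ) * τ s

theorem ORB_aeval (w : T →ₗ[ℝ] T) (τ : Fin r → ℂ) (P : MvPolynomial (Fin r) ℝ) :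
    aeval τ (SUBST_act c w P) = aeval (ORB_mv c w τ) P := by
  unfold SUBST_act
  induction P using MvPolynomial.induction_on with
  | C a => rw [aeval_C]; simp
  | add p q hp hq => rw [map_add, map_add, map_add, hp, hq]
  | mul_X p i hp =>
    rw [map_mul, map_mul, map_mul, hp, aeval_X, aeval_X]
    congr 1
    rw [map_sum]
    unfold ORB_mv
    refine Finset.sum_congr rfl fun s _ => ?_
    rw [map_mul, aeval_C, aeval_X]
    rfl

theorem ORB_one (τ : Fin r → ℂ) : ORB_mv c (LinearMap.id) τ = τ := by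
  funext i
  unfold ORB_mv
  simp only [LinearMap.id_apply, Module.Basis.repr_self, Finsupp.single_apply]
  rw [Finset.sum_eq_single i]
  · simp
  · intro s _ hs
    rw [if_neg hs]; simp
  · intro h; exact absurd (Finset.mem_univ i) h

theorem ORB_lval (w : T →ₗ[ℝ] T) (τ : Fin r → ℂ) (l : T →ₗ[ℝ] ℝ) :
    lval c τ (l ∘ₗ w) = lval c (ORB_mv c w τ) l := by
  unfold lval ORB_mv
  have h1 : ∀ s, ((l ∘ₗ w) (c s) : ℝ) = ∑ i, c.repr (w (c s)) i * l (c i) := by
    intro s
    rw [LinearMap.comp_apply]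
    conv_lhs => rw [← c.sum_repr (w (c s))]
    rw [map_sum]
    refine Finset.sum_congr rfl fun i _ => ?_
    rw [map_smul, smul_eq_mul]
  simp only [h1, Complex.ofReal_sum, Finset.sum_mul, Finset.mul_sum, Complex.ofReal_mul]
  rw [Finset.sum_comm]
  refine Finset.sum_congr rfl fun i _ => Finset.sum_congr rfl fun s _ => ?_
  ring

theorem ORB_conj (τ : Fin r → ℂ) (P : MvPolynomial (Fin r) ℝ) :
    aeval (fun i => (starRingEnd ℂ) (τ i)) P = (starRingEnd ℂ) (aeval τ P) := by
  induction P using MvPolynomial.induction_on with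
  | C a =>
    rw [aeval_C, aeval_C]
    exact (Complex.conj_ofReal a).symm
  | add p q hp hq => rw [map_add, map_add, map_add, hp, hq]
  | mul_X p i hp => rw [map_mul, map_mul, map_mul, hp, aeval_X, aeval_X]

end ORB

theorem st_ORB : ST_ORB := by
  classical
  intro r T _ _ c W hW τ hτ
  have := Fintype.ofFinite W
  by_contra hcon
  push Not at hcon
  let E : W → T →ₗ[ℝ] T := fun w => ((w : T ≃ₗ[ℝ] T) : T →ₗ[ℝ] T)
  let σ : Fin r → ℂ := fun i => (starRingEnd ℂ) (τ i)
  have hne : ∀ w : W, ∃ i, σ i ≠ ORB_mv c (E w) τ i := by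
    intro w
    by_contra h
    push Not at h
    obtain ⟨l, hl⟩ := hcon w.1 w.2
    apply hl
    have h1 : (starRingEnd ℂ) (lval c τ l) = lval c σ l := by
      unfold lval
      rw [map_sum]
      refine Finset.sum_congr rfl fun s _ => ?_
      rw [map_mul, Complex.conj_ofReal]
    rw [h1]
    have h2 := ORB_lval c (E w) τ l
    rw [← funext h] at h2
    exact h2.symm
  let D : W → Polynomial ℂ := fun w =>
    ∑ i : Fin r, Polynomial.C (σ i - ORB_mv c (E w) τ i) * Polynomial.X ^ (i : ℕ)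
  have hD : ∀ w, D w ≠ 0 := by
    intro w h0
    obtain ⟨i, hi⟩ := hne w
    apply hi
    have h1 : (D w).coeff (i : ℕ) = σ i - ORB_mv c (E w) τ i := by
      simp only [D, Polynomial.finsetSum_coeff, Polynomial.coeff_C_mul, Polynomial.coeff_X_pow]
      rw [Finset.sum_eq_single i]
      · simp
      · intro j _ hj
        rw [if_neg (fun h => hj (Fin.ext h.symm)), mul_zero]
      · intro h; exact absurd (Finset.mem_univ i) h
    rw [h0, Polynomial.coeff_zero] at h1
    exact sub_eq_zero.mp h1.symm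
  have hprod : (∏ w, D w) ≠ 0 := Finset.prod_ne_zero_iff.mpr fun w _ => hD w
  have hinf : (Set.range fun t : ℝ => (t : ℂ)).Infinite :=
    Set.infinite_range_of_injective Complex.ofReal_injective
  obtain ⟨t, ht⟩ : ∃ t : ℝ, (∏ w, D w).eval (t : ℂ) ≠ 0 := by
    by_contra h
    push Not at h
    apply hprod
    refine Polynomial.eq_zero_of_infinite_isRoot _ (hinf.mono ?_)
    rintro _ ⟨t, rfl⟩
    exact h t
  let L : MvPolynomial (Fin r) ℝ := ∑ i : Fin r, C (t ^ (i : ℕ)) * X i
  have hL : ∀ ρ : Fin r → ℂ, aeval ρ L = ∑ i : Fin r, (t : ℂ) ^ (i : ℕ) * ρ i := by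
    intro ρ
    simp only [L, map_sum, map_mul, aeval_C, aeval_X]
    refine Finset.sum_congr rfl fun i _ => ?_
    simp
  have hLne : ∀ w : W, aeval σ L - aeval (ORB_mv c (E w) τ) L ≠ 0 := by
    intro w h0
    rw [Polynomial.eval_prod, Finset.prod_ne_zero_iff] at ht
    apply ht w (Finset.mem_univ w)
    rw [hL, hL, ← Finset.sum_sub_distrib] at h0
    simp only [D, Polynomial.eval_finsetSum, Polynomial.eval_mul, Polynomial.eval_C,
      Polynomial.eval_pow, Polynomial.eval_X]
    rw [← h0]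
    refine Finset.sum_congr rfl fun i _ => ?_
    ring
  let p : Polynomial ℂ := ∏ w : W, (Polynomial.X - Polynomial.C (aeval (ORB_mv c (E w) τ) L))
  have hp : ∀ s : ℝ, ∃ a : ℝ, p.eval (s : ℂ) = (a : ℂ) := by
    intro s
    let P : MvPolynomial (Fin r) ℝ := ∏ w : W, (C s - SUBST_act c (E w) L)
    have hP : WInv c W P := by
      rw [SUBST_inv]
      intro v hv
      simp only [P, map_prod, map_sub]
      refine Fintype.prod_equiv (Equiv.mulRight (⟨v, hv⟩ : W)) _ _ fun w => ?_
      refine SUBST_ext c fun x => ?_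
      have h1 : ∀ (x : T) (A B : MvPolynomial (Fin r) ℝ), val c x (A - B) = val c x A - val c x B :=
        fun x A B => by unfold val; exact map_sub _ _ _
      rw [h1, h1, SUBST_val, SUBST_val, SUBST_val, SUBST_val, SUBST_C, SUBST_C]
      rfl
    obtain ⟨a, ha⟩ := hτ P hP
    refine ⟨a, ?_⟩
    rw [← ha]
    simp only [P, p, Polynomial.eval_prod, map_prod, Polynomial.eval_sub, Polynomial.eval_X,
      Polynomial.eval_C, map_sub, aeval_C, ORB_aeval]
    rfl
  have hpc : p.map (starRingEnd ℂ) = p := by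
    refine Polynomial.eq_of_infinite_eval_eq _ _ (hinf.mono ?_)
    rintro _ ⟨s, rfl⟩
    obtain ⟨a, ha⟩ := hp s
    change (p.map (starRingEnd ℂ)).eval (s : ℂ) = p.eval (s : ℂ)
    have h1 : (p.map (starRingEnd ℂ)).eval ((starRingEnd ℂ) (s : ℂ)) =
        (starRingEnd ℂ) (p.eval (s : ℂ)) := by
      rw [Polynomial.eval_map, Polynomial.eval₂_at_apply]
    rw [Complex.conj_ofReal] at h1
    rw [h1, ha, Complex.conj_ofReal]
  have h0 : p.eval (aeval τ L) = 0 := by
    simp only [p, Polynomial.eval_prod, Polynomial.eval_sub, Polynomial.eval_X, Polynomial.eval_C]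
    refine Finset.prod_eq_zero (Finset.mem_univ (1 : W)) ?_
    have h2 : ORB_mv c (E 1) τ = τ := ORB_one c τ
    rw [h2, sub_self]
  have h1 : p.eval (aeval σ L) = 0 := by
    have h2 : aeval σ L = (starRingEnd ℂ) (aeval τ L) := ORB_conj τ L
    rw [h2, ← hpc, Polynomial.eval_map, Polynomial.eval₂_at_apply, h0, map_zero]
  have h2 : p.eval (aeval σ L) ≠ 0 := by
    simp only [p, Polynomial.eval_prod, Polynomial.eval_sub, Polynomial.eval_X, Polynomial.eval_C]
    exact Finset.prod_ne_zero_iff.mpr fun w _ => hLne w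
  exact h2 h1

end Pool.Agent.Helper80.CB

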