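import Pool.Agent.Helper41.CB.A_SUBST

/-! # Module A_REYN: the Reynolds operator -/

namespace Pool.Agent.Helper80.CB

open Matrix MvPolynomial

theorem st_REYN : ST_REYN := by
  classical
  intro r T _ _ c W hW
  have := Fintype.ofFinite W
  have hcard : (Fintype.card W : ℝ) ≠ 0 := by
    exact_mod_cast Fintype.card_ne_zero
  let ρ : MvPolynomial (Fin r) ℝ →ₗ[ℝ] MvPolynomial (Fin r) ℝ :=
    (Fintype.card W : ℝ)⁻¹ • ∑ w : W, (SUBST_act c ((w : T ≃ₗ[ℝ] T) : T →ₗ[ℝ] T)).toLinearMap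
  have hρ : ∀ P, ρ P = (Fintype.card W : ℝ)⁻¹ •
      ∑ w : W, SUBST_act c ((w : T ≃ₗ[ℝ] T) : T →ₗ[ℝ] T) P := by
    intro P
    simp only [ρ, LinearMap.smul_apply, LinearMap.sum_apply]
    rfl
  refine ⟨ρ, ?_, ?_, ?_, ?_, ?_⟩
  · intro P v hv x
    rw [hρ, SUBST_smul, SUBST_smul, SUBST_sum, SUBST_sum]
    congr 1
    refine Fintype.sum_equiv (Equiv.mulRight (⟨v, hv⟩ : W)) _ _ fun w => ?_
    rw [SUBST_val, SUBST_val]
    rfl
  · intro P hP
    rw [hρ]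
    rw [SUBST_inv] at hP
    rw [Finset.sum_congr rfl fun (w : W) _ => hP w.1 w.2]
    rw [Finset.sum_const, Finset.card_univ, ← Nat.cast_smul_eq_nsmul ℝ, smul_smul,
      inv_mul_cancel₀ hcard, one_smul]
  · intro P Q hP
    rw [hρ, hρ]
    rw [SUBST_inv] at hP
    rw [mul_smul_comm, Finset.mul_sum]
    congr 1
    refine Finset.sum_congr rfl fun w _ => ?_
    rw [map_mul, hP w.1 w.2]
  · intro P d hP
    rw [hρ, smul_eq_C_mul]
    have h1 : (∑ w : W, SUBST_act c ((w : T ≃ₗ[ℝ] T) : T →ₗ[ℝ] T) P).IsHomogeneous d :=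
      IsHomogeneous.sum _ _ _ fun w _ => SUBST_hom c _ hP
    have h2 := (isHomogeneous_C (Fin r) ((Fintype.card W : ℝ)⁻¹)).mul h1
    rwa [zero_add] at h2
  · intro I P hP
    have h1 : ρ P - P = (Fintype.card W : ℝ)⁻¹ •
        ∑ w : W, (SUBST_act c ((w : T ≃ₗ[ℝ] T) : T →ₗ[ℝ] T) P - P) := by
      rw [Finset.sum_sub_distrib, smul_sub, ← hρ, Finset.sum_const, Finset.card_univ,
        ← Nat.cast_smul_eq_nsmul ℝ, smul_smul, inv_mul_cancel₀ hcard, one_smul]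
    rw [h1, smul_eq_C_mul]
    refine I.mul_mem_left _ (I.sum_mem fun w _ => ?_)
    obtain ⟨Q, hQ, hQI⟩ := hP w.1 w.2
    have h2 : SUBST_act c ((w : T ≃ₗ[ℝ] T) : T →ₗ[ℝ] T) P = Q := by
      refine SUBST_ext c fun x => ?_
      rw [SUBST_val, hQ]
      rfl
    rwa [h2]

end Pool.Agent.Helper80.CB

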