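import Pool.Agent.Helper80.CB.Stmts

/-! # Linear substitutions in polynomials on a real vector space with a basis

`SUBST_act c w P` is the polynomial `x ↦ P (w x)`. -/

namespace Pool.Agent.Helper80.CB

open Matrix MvPolynomial

section SUBST
variable {r : ℕ} {T : Type} [AddCommGroup T] [Module ℝ T] (c : Module.Basis (Fin r) ℝ T)

/-- Two polynomials with the same values are equal. -/
theorem SUBST_ext {P Q : MvPolynomial (Fin r) ℝ} (h : ∀ x, val c x P = val c x Q) : P = Q := by
  refine MvPolynomial.funext fun y => ?_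
  have h1 := h (∑ i, y i • c i)
  have h2 : (fun i => c.repr (∑ j, y j • c j) i) = y := by
    funext i
    rw [map_sum, Finsupp.finsetSum_apply]
    simp only [map_smul, Finsupp.smul_apply, Module.Basis.repr_self, Finsupp.single_apply,
      smul_eq_mul, mul_ite, mul_one, mul_zero]
    simp
  unfold val at h1
  rwa [h2] at h1

theorem SUBST_add (x : T) (P Q : MvPolynomial (Fin r) ℝ) :
    val c x (P + Q) = val c x P + val c x Q := by
  unfold val; exact map_add _ _ _

theorem SUBST_mul (x : T) (P Q : MvPolynomial (Fin r) ℝ) :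
    val c x (P * Q) = val c x P * val c x Q := by
  unfold val; exact map_mul _ _ _

theorem SUBST_smul (x : T) (a : ℝ) (P : MvPolynomial (Fin r) ℝ) :
    val c x (a • P) = a * val c x P := by
  unfold val; rw [smul_eval]

theorem SUBST_sum {ι : Type*} (s : Finset ι) (x : T) (P : ι → MvPolynomial (Fin r) ℝ) :
    val c x (∑ i ∈ s, P i) = ∑ i ∈ s, val c x (P i) := by
  unfold val; exact map_sum _ _ _

theorem SUBST_one (x : T) : val c x (1 : MvPolynomial (Fin r) ℝ) = 1 := by
  unfold val; exact map_one _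

theorem SUBST_C (x : T) (a : ℝ) : val c x (C a : MvPolynomial (Fin r) ℝ) = a := by
  unfold val; exact eval_C _

/-- Linear substitution. -/
noncomputable def SUBST_act (w : T →ₗ[ℝ] T) : MvPolynomial (Fin r) ℝ →ₐ[ℝ] MvPolynomial (Fin r) ℝ :=
  aeval fun i => ∑ s, C (c.repr (w (c s)) i) * X s

theorem SUBST_lin (w : T →ₗ[ℝ] T) (x : T) (i : Fin r) :
    c.repr (w x) i = ∑ s, c.repr (w (c s)) i * c.repr x s := by
  conv_lhs => rw [← c.sum_repr x]
  rw [map_sum, map_sum, Finsupp.finsetSum_apply]
  refine Finset.sum_congr rfl fun s _ => ?_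
  rw [map_smul, map_smul, Finsupp.smul_apply, smul_eq_mul, mul_comm]

theorem SUBST_val (w : T →ₗ[ℝ] T) (x : T) (P : MvPolynomial (Fin r) ℝ) :
    val c x (SUBST_act c w P) = val c (w x) P := by
  unfold val SUBST_act
  induction P using MvPolynomial.induction_on with
  | C a => rw [aeval_C]; simp
  | add p q hp hq => rw [map_add, map_add, map_add, hp, hq]
  | mul_X p i hp =>
    rw [map_mul, map_mul, map_mul, hp, aeval_X, eval_X]
    congr 1
    rw [map_sum, SUBST_lin c w x i]
    refine Finset.sum_congr rfl fun s _ => ?_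
    rw [map_mul, eval_C, eval_X]

theorem SUBST_hom (w : T →ₗ[ℝ] T) {P : MvPolynomial (Fin r) ℝ} {d : ℕ} (h : P.IsHomogeneous d) :
    (SUBST_act c w P).IsHomogeneous d := by
  unfold SUBST_act
  have h1 := h.aeval (fun i => ∑ s, C (c.repr (w (c s)) i) * X s) (n := 1) ?_
  · rwa [one_mul] at h1
  · intro i
    refine IsHomogeneous.sum _ _ _ fun s _ => ?_
    have := (isHomogeneous_C (Fin r) (c.repr (w (c s)) i)).mul (isHomogeneous_X ℝ s)
    rwa [zero_add] at this

theorem SUBST_comp (w : T →ₗ[ℝ] T) (P : MvPolynomial (Fin r) ℝ) (k : ℕ) :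
    homogeneousComponent k (SUBST_act c w P) = SUBST_act c w (homogeneousComponent k P) := by
  have h1 : ∀ (s : Finset ℕ),
      homogeneousComponent k (SUBST_act c w (∑ i ∈ s, homogeneousComponent i P)) =
      ∑ i ∈ s, if k = i then SUBST_act c w (homogeneousComponent i P) else 0 := by
    intro s
    rw [map_sum, map_sum]
    refine Finset.sum_congr rfl fun i _ => ?_
    exact homogeneousComponent_of_mem (SUBST_hom c w (homogeneousComponent_isHomogeneous i P))
  conv_lhs => rw [← sum_homogeneousComponent P]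
  rw [h1, Finset.sum_ite_eq]
  split_ifs with h
  · rfl
  · rw [homogeneousComponent_eq_zero, map_zero]
    rw [Finset.mem_range, not_lt] at h
    omega

theorem SUBST_inv {W : Subgroup (T ≃ₗ[ℝ] T)} {P : MvPolynomial (Fin r) ℝ} :
    WInv c W P ↔ ∀ w ∈ W, SUBST_act c (w : T →ₗ[ℝ] T) P = P := by
  constructor
  · intro h w hw
    refine SUBST_ext c fun x => ?_
    rw [SUBST_val]
    exact h w hw x
  · intro h w hw x
    have h1 := SUBST_val c (w : T →ₗ[ℝ] T) x P
    rw [h w hw] at h1
    exact h1.symm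

theorem SUBST_inv_comp {W : Subgroup (T ≃ₗ[ℝ] T)} {P : MvPolynomial (Fin r) ℝ}
    (h : WInv c W P) (k : ℕ) : WInv c W (homogeneousComponent k P) := by
  rw [SUBST_inv] at h ⊢
  intro w hw
  rw [← SUBST_comp, h w hw]

/-- The algebra of invariants. -/
noncomputable def SUBST_alg (W : Subgroup (T ≃ₗ[ℝ] T)) : Subalgebra ℝ (MvPolynomial (Fin r) ℝ) where
  carrier := {P | WInv c W P}
  mul_mem' := by
    intro P Q hP hQ w hw x
    rw [SUBST_mul, SUBST_mul, hP w hw x, hQ w hw x]
  add_mem' := by
    intro P Q hP hQ w hw x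
    rw [SUBST_add, SUBST_add, hP w hw x, hQ w hw x]
  algebraMap_mem' := by
    intro a w hw x
    rw [MvPolynomial.algebraMap_eq, SUBST_C, SUBST_C]

theorem SUBST_mem_alg {W : Subgroup (T ≃ₗ[ℝ] T)} {P : MvPolynomial (Fin r) ℝ} :
    P ∈ SUBST_alg c W ↔ WInv c W P := Iff.rfl

end SUBST

end Pool.Agent.Helper80.CB
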