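import Pool.Agent.Helper83.CB.Defs2

/-! # Module COER: coercivity transversally to the isometry group -/

open Filter Topology MeasureTheory

namespace Pool.Agent.Helper83.CB

theorem COER_zero {V : Type*} [AddCommGroup V] [Module ℂ V] {N : V → ℝ} (h : IsNorm N) :
    N 0 = 0 := by
  have := h.smul 0 0
  simpa using this

theorem COER_neg {V : Type*} [AddCommGroup V] [Module ℂ V] {N : V → ℝ} (h : IsNorm N) (x : V) :
    N (-x) = N x := by
  have := h.smul (-1) x
  simpa using this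

theorem COER_nonneg {V : Type*} [AddCommGroup V] [Module ℂ V] {N : V → ℝ} (h : IsNorm N) (x : V) :
    0 ≤ N x := by
  by_cases hx : x = 0
  · rw [hx, COER_zero h]
  · exact (h.pos x hx).le

theorem COER_sub {V : Type*} [AddCommGroup V] [Module ℂ V] {N : V → ℝ} (h : IsNorm N) (x y : V) :
    |N x - N y| ≤ N (x - y) := by
  rw [abs_le]
  constructor
  · have h1 := h.add (y - x) x
    rw [sub_add_cancel] at h1
    have h2 := COER_neg h (x - y)
    rw [neg_sub] at h2
    linarith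
  · have h1 := h.add (x - y) y
    rw [sub_add_cancel] at h1
    linarith

theorem COER_sum {V : Type*} [AddCommGroup V] [Module ℂ V] {N : V → ℝ} (h : IsNorm N) {ι : Type*}
    (s : Finset ι) (f : ι → V) : N (∑ i ∈ s, f i) ≤ ∑ i ∈ s, N (f i) := by
  classical
  induction s using Finset.induction_on with
  | empty => rw [Finset.sum_empty, Finset.sum_empty, COER_zero h]
  | insert a s ha ih =>
    rw [Finset.sum_insert ha, Finset.sum_insert ha]
    exact (h.add _ _).trans (add_le_add le_rfl ih)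

theorem COER_bound {n : ℕ} {N : E n → ℝ} (h : IsNorm N) : ∃ C : ℝ, 0 ≤ C ∧ ∀ x, N x ≤ C * ‖x‖ := by
  refine ⟨∑ i, N (EuclideanSpace.single i 1), Finset.sum_nonneg fun i _ => COER_nonneg h _,
    fun x => ?_⟩
  have hx : x = ∑ i, x i • (EuclideanSpace.single i (1 : ℂ) : E n) := by
    have := (EuclideanSpace.basisFun (Fin n) ℂ).sum_repr x
    simpa using this.symm
  calc N x = N (∑ i, x i • (EuclideanSpace.single i (1 : ℂ) : E n)) := by rw [← hx]
    _ ≤ ∑ i, N (x i • (EuclideanSpace.single i (1 : ℂ) : E n)) := COER_sum h _ _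
    _ = ∑ i, ‖x i‖ * N (EuclideanSpace.single i 1) := Finset.sum_congr rfl fun i _ => h.smul _ _
    _ ≤ ∑ i, ‖x‖ * N (EuclideanSpace.single i 1) := by
      refine Finset.sum_le_sum fun i _ => ?_
      exact mul_le_mul_of_nonneg_right (PiLp.norm_apply_le x i) (COER_nonneg h _)
    _ = (∑ i, N (EuclideanSpace.single i 1)) * ‖x‖ := by
      rw [← Finset.mul_sum, mul_comm]

theorem COER_cont {n : ℕ} {N : E n → ℝ} (h : IsNorm N) : Continuous N := by
  obtain ⟨C, hC0, hC⟩ := COER_bound h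
  have : LipschitzWith (Real.toNNReal C) N := by
    refine LipschitzWith.of_dist_le_mul fun x y => ?_
    rw [Real.dist_eq, dist_eq_norm, Real.coe_toNNReal C hC0]
    exact (COER_sub h x y).trans (hC _)
  exact this.continuous

theorem COER_rs {n : ℕ} (t : ℝ) (X : M n) : t • X = (t : ℂ) • X := rfl

theorem COER_comm {n : ℕ} (s t : ℂ) (X : M n) : Commute (s • X) (t • X) :=
  ((Commute.refl X).smul_left _).smul_right _

theorem COER_exp_mul {n : ℕ} (X Y : M n) (h : Commute X Y) :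
    NormedSpace.exp (X + Y) = NormedSpace.exp X * NormedSpace.exp Y := by
  let _ : NormedAlgebra ℚ (M n) := NormedAlgebra.restrictScalars ℚ ℂ (M n)
  exact NormedSpace.exp_add_of_commute h

theorem COER_exp_add {n : ℕ} (s t : ℝ) (X : M n) :
    NormedSpace.exp ((s + t) • X) = NormedSpace.exp (s • X) * NormedSpace.exp (t • X) := by
  rw [← COER_exp_mul]
  · congr 1
    exact add_smul s t X
  · rw [COER_rs, COER_rs]
    exact COER_comm _ _ _

theorem COER_exp_cont {n : ℕ} : Continuous (fun X : M n => NormedSpace.exp X) := by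
  let _ : NormedAlgebra ℚ (M n) := NormedAlgebra.restrictScalars ℚ ℂ (M n)
  exact NormedSpace.exp_continuous

/-- homogeneity of the defect -/
theorem COER_scale {n : ℕ} {N : E n → ℝ} (h : IsNorm N) (g : M n) (ε : ℝ)
    (hg : ∀ z : E n, ‖z‖ ≤ 1 → |N (g z) - N z| ≤ ε) (w : E n) : |N (g w) - N w| ≤ ε * ‖w‖ := by
  by_cases hw : w = 0
  · rw [hw, map_zero, sub_self, abs_zero, norm_zero, mul_zero]
  · have hw' : 0 < ‖w‖ := norm_pos_iff.mpr hw
    have h1 := hg (((‖w‖⁻¹ : ℝ) : ℂ) • w) (by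
      rw [norm_smul, Complex.norm_real, Real.norm_of_nonneg (inv_nonneg.mpr hw'.le),
        inv_mul_cancel₀ hw'.ne'])
    rw [map_smul, h.smul, h.smul, Complex.norm_real, Real.norm_of_nonneg (inv_nonneg.mpr hw'.le),
      ← mul_sub, abs_mul, abs_of_pos (inv_pos.mpr hw')] at h1
    calc |N (g w) - N w| = ‖w‖⁻¹ * |N (g w) - N w| * ‖w‖ := by field_simp
      _ ≤ ε * ‖w‖ := by gcongr

theorem COER_iter {n : ℕ} {N : E n → ℝ} (h : IsNorm N) (X : M n) (ε B t : ℝ) (_hB : 0 ≤ B)
    (hBd : ∀ Y : M n, ‖Y‖ ≤ t → ‖NormedSpace.exp Y‖ ≤ B) (hε : 0 ≤ ε)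
    (hg : ∀ z : E n, ‖z‖ ≤ 1 → |N (NormedSpace.exp X z) - N z| ≤ ε) (z : E n) (k : ℕ)
    (hk : k * ‖X‖ ≤ t) :
    |N (NormedSpace.exp ((k : ℝ) • X) z) - N z| ≤ k * (ε * (B * ‖z‖)) := by
  induction k with
  | zero =>
    have h0 : ((0 : ℕ) : ℝ) • X = 0 := by
      rw [Nat.cast_zero]
      exact zero_smul ℝ X
    rw [h0, NormedSpace.exp_zero]
    simp
  | succ k ih =>
    have hk' : (k : ℝ) * ‖X‖ ≤ t := by
      refine le_trans ?_ hk
      gcongr
      exact Nat.le_succ k
    have h1 := ih hk'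
    have hexp : NormedSpace.exp (((k + 1 : ℕ) : ℝ) • X) =
        NormedSpace.exp X * NormedSpace.exp ((k : ℝ) • X) := by
      have h5 := COER_exp_add 1 (k : ℝ) X
      have h6 : (1 : ℝ) • X = X := one_smul ℝ X
      rw [h6] at h5
      rw [← h5]
      congr 2
      push_cast
      ring
    have h2 := COER_scale h (NormedSpace.exp X) ε hg (NormedSpace.exp ((k : ℝ) • X) z)
    have h3 : ‖NormedSpace.exp ((k : ℝ) • X) z‖ ≤ B * ‖z‖ := by
      refine (ContinuousLinearMap.le_opNorm _ z).trans ?_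
      gcongr
      refine hBd _ ?_
      rw [norm_smul, Real.norm_of_nonneg (Nat.cast_nonneg k)]
      exact hk'
    have h4 : N (NormedSpace.exp (((k + 1 : ℕ) : ℝ) • X) z) =
        N (NormedSpace.exp X (NormedSpace.exp ((k : ℝ) • X) z)) := by
      rw [hexp]
      rfl
    rw [h4]
    calc |N (NormedSpace.exp X (NormedSpace.exp ((k : ℝ) • X) z)) - N z|
        ≤ |N (NormedSpace.exp X (NormedSpace.exp ((k : ℝ) • X) z)) -
            N (NormedSpace.exp ((k : ℝ) • X) z)| +
          |N (NormedSpace.exp ((k : ℝ) • X) z) - N z| := abs_sub_le _ _ _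
      _ ≤ ε * (B * ‖z‖) + k * (ε * (B * ‖z‖)) := by
        refine add_le_add (h2.trans ?_) h1
        gcongr
      _ = ((k + 1 : ℕ) : ℝ) * (ε * (B * ‖z‖)) := by
        push_cast
        ring

theorem st_COER : ST_COER := by
  intro n N0 hN _ k hk m hmk
  have hprop : ProperSpace (M n) := FiniteDimensional.proper ℂ (M n)
  have hfinR : FiniteDimensional ℝ (M n) := FiniteDimensional.complexToReal (M n)
  by_contra hcon
  push Not at hcon
  -- a bad sequence
  have hj : ∀ j : ℕ, ∃ X ∈ m, ‖X‖ < 1 / ((j : ℝ) + 1) ∧ ∀ z : E n, ‖z‖ ≤ 1 →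
      |N0 (NormedSpace.exp X z) - N0 z| < 1 / ((j : ℝ) + 1) * ‖X‖ := fun j =>
    hcon _ Nat.one_div_pos_of_nat _ Nat.one_div_pos_of_nat
  choose X hXm hXs hXz using hj
  have hX0 : ∀ j, 0 < ‖X j‖ := by
    intro j
    have h1 := hXz j 0 (by rw [norm_zero]; exact zero_le_one)
    rw [map_zero, sub_self, abs_zero] at h1
    by_contra h0
    have h2 : ‖X j‖ = 0 := le_antisymm (not_lt.mp h0) (norm_nonneg _)
    rw [h2, mul_zero] at h1
    exact lt_irrefl _ h1
  let U : ℕ → M n := fun j => (‖X j‖⁻¹ : ℝ) • X j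
  have hU1 : ∀ j, U j ∈ Metric.sphere (0 : M n) 1 := by
    intro j
    rw [mem_sphere_zero_iff_norm, norm_smul, norm_inv, norm_norm, inv_mul_cancel₀ (hX0 j).ne']
  obtain ⟨V, hV, φ, hφ, hlim⟩ := (isCompact_sphere (0 : M n) 1).tendsto_subseq hU1
  have hVm : V ∈ m := by
    have hcl : IsClosed (m : Set (M n)) := m.closed_of_finiteDimensional
    exact hcl.mem_of_tendsto hlim (Eventually.of_forall fun j => m.smul_mem _ (hXm _))
  have hs0 : Tendsto (fun j => ‖X (φ j)‖) atTop (𝓝 0) := by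
    have h1 : Tendsto (fun j : ℕ => 1 / ((φ j : ℝ) + 1)) atTop (𝓝 0) :=
      tendsto_one_div_add_atTop_nhds_zero_nat.comp hφ.tendsto_atTop
    exact squeeze_zero (fun j => norm_nonneg _) (fun j => (hXs (φ j)).le) h1
  -- nonnegative times
  have hpos : ∀ t : ℝ, 0 ≤ t → ∀ z, N0 (NormedSpace.exp (t • V) z) = N0 z := by
    intro t ht z
    obtain ⟨B, hB⟩ := (isCompact_closedBall (0 : M n) t).exists_bound_of_continuousOn
      (f := fun Y : M n => NormedSpace.exp Y) COER_exp_cont.continuousOn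
    have hBd : ∀ Y : M n, ‖Y‖ ≤ t → ‖NormedSpace.exp Y‖ ≤ max B 0 := fun Y hY =>
      (hB Y (mem_closedBall_zero_iff.mpr hY)).trans (le_max_left _ _)
    let K : ℕ → ℕ := fun j => ⌊t / ‖X (φ j)‖⌋₊
    have hK1 : ∀ j, (K j : ℝ) * ‖X (φ j)‖ ≤ t := by
      intro j
      have h1 : (K j : ℝ) ≤ t / ‖X (φ j)‖ := Nat.floor_le (div_nonneg ht (norm_nonneg _))
      rwa [le_div_iff₀ (hX0 _)] at h1
    have hK2 : ∀ j, t - ‖X (φ j)‖ ≤ (K j : ℝ) * ‖X (φ j)‖ := by
      intro j
      have h1 : t / ‖X (φ j)‖ < (K j : ℝ) + 1 := Nat.lt_floor_add_one _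
      rw [div_lt_iff₀ (hX0 _)] at h1
      linarith
    have hKt : Tendsto (fun j => (K j : ℝ) * ‖X (φ j)‖) atTop (𝓝 t) := by
      refine tendsto_of_tendsto_of_tendsto_of_le_of_le ?_ tendsto_const_nhds hK2 hK1
      have := (tendsto_const_nhds (x := t)).sub hs0
      rwa [sub_zero] at this
    have hKX : Tendsto (fun j => (K j : ℝ) • X (φ j)) atTop (𝓝 (t • V)) := by
      have h1 : ∀ j, (K j : ℝ) • X (φ j) = ((K j : ℝ) * ‖X (φ j)‖) • U (φ j) := by
        intro j
        change _ = ((K j : ℝ) * ‖X (φ j)‖) • ((‖X (φ j)‖⁻¹ : ℝ) • X (φ j))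
        rw [smul_smul, mul_assoc, mul_inv_cancel₀ (hX0 _).ne', mul_one]
      simp only [h1]
      exact hKt.smul hlim
    have hl1 : Tendsto (fun j => N0 (NormedSpace.exp ((K j : ℝ) • X (φ j)) z)) atTop
        (𝓝 (N0 (NormedSpace.exp (t • V) z))) := by
      have h1 : Tendsto (fun j => NormedSpace.exp ((K j : ℝ) • X (φ j))) atTop
          (𝓝 (NormedSpace.exp (t • V))) := (COER_exp_cont.tendsto _).comp hKX
      have h2 : Continuous fun g : M n => N0 (g z) :=
        (COER_cont hN).comp (ContinuousLinearMap.apply ℂ (E n) z).continuous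
      exact (h2.tendsto _).comp h1
    have hl2 : Tendsto (fun j => N0 (NormedSpace.exp ((K j : ℝ) • X (φ j)) z)) atTop
        (𝓝 (N0 z)) := by
      rw [tendsto_iff_norm_sub_tendsto_zero]
      have h3 : Tendsto (fun j : ℕ => t * (1 / ((φ j : ℝ) + 1)) * (max B 0 * ‖z‖)) atTop
          (𝓝 0) := by
        have h1 : Tendsto (fun j : ℕ => 1 / ((φ j : ℝ) + 1)) atTop (𝓝 0) :=
          tendsto_one_div_add_atTop_nhds_zero_nat.comp hφ.tendsto_atTop
        have := (h1.const_mul t).mul_const (max B 0 * ‖z‖)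
        rwa [mul_zero, zero_mul] at this
      refine squeeze_zero (fun j => norm_nonneg _) (fun j => ?_) h3
      rw [Real.norm_eq_abs]
      refine (COER_iter hN (X (φ j)) (1 / ((φ j : ℝ) + 1) * ‖X (φ j)‖) (max B 0) t
        (le_max_right _ _) hBd (by positivity) (fun w hw => (hXz (φ j) w hw).le) z (K j)
        (hK1 j)).trans ?_
      have h4 : (K j : ℝ) * (1 / ((φ j : ℝ) + 1) * ‖X (φ j)‖ * (max B 0 * ‖z‖)) =
          ((K j : ℝ) * ‖X (φ j)‖) * (1 / ((φ j : ℝ) + 1)) * (max B 0 * ‖z‖) := by ring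
      rw [h4]
      have h5 : 0 ≤ 1 / ((φ j : ℝ) + 1) := by positivity
      have h6 : 0 ≤ max B 0 * ‖z‖ := by positivity
      exact mul_le_mul_of_nonneg_right (mul_le_mul_of_nonneg_right (hK1 j) h5) h6
    exact tendsto_nhds_unique hl1 hl2
  have hVk : V ∈ k := by
    rw [hk.mem]
    intro t z
    rcases le_total 0 t with ht | ht
    · exact hpos t ht z
    · have h1 := hpos (-t) (neg_nonneg.mpr ht) (NormedSpace.exp (t • V) z)
      have h2 : NormedSpace.exp (-t • V) (NormedSpace.exp (t • V) z) = z := by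
        have h3 := COER_exp_add (-t) t V
        have h4 : (-t + t) • V = 0 := by
          rw [neg_add_cancel]
          exact zero_smul ℝ V
        rw [h4, NormedSpace.exp_zero] at h3
        have h5 := congrArg (fun g : M n => g z) h3
        exact h5.symm
      rw [← h1, h2]
  have hV0 : V = 0 := (Submodule.disjoint_def.mp hmk) V hVm hVk
  rw [mem_sphere_zero_iff_norm, hV0, norm_zero] at hV
  exact zero_ne_one hV

end Pool.Agent.Helper83.CB
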