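import Pool.Agent.Helper83.CB.Defs

/-! # Module GT: assembly of the geometric theorem -/

namespace Pool.Agent.Helper83.CB

theorem GT_finrank (n : ℕ) (A : Submodule ℂ (E n)) : Module.finrank ℂ A ≤ n := by
  have h := Submodule.finrank_le A
  rwa [finrank_euclideanSpace_fin] at h

theorem st_GT (hLOC : ST_LOC) (hGLOB : ST_GLOB) (hHIL : ST_HIL) : ST_GT := by
  classical
  intro n N0 N hS hA
  obtain ⟨A, hA, hA2⟩ := hA
  -- a rotational subspace of maximal dimension
  have hex : ∃ r, ∃ W, IsRot N0 ⊤ W ∧ Module.finrank ℂ W = r := ⟨_, A, hA, rfl⟩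
  have hbd : ∀ r, (∃ W, IsRot N0 ⊤ W ∧ Module.finrank ℂ W = r) → r ≤ n := by
    rintro r ⟨W, _, rfl⟩
    exact GT_finrank n W
  obtain ⟨W1, hW1, hr⟩ := Nat.findGreatest_spec (P := fun r => ∃ W, IsRot N0 ⊤ W ∧
    Module.finrank ℂ W = r) (hbd _ hex.choose_spec) hex.choose_spec
  obtain ⟨C1, hC1⟩ := hW1
  have hmax : ∀ B : Submodule ℂ (E n), IsRot N0 ⊤ B → Module.finrank ℂ B ≤ Module.finrank ℂ W1 := by
    intro B hB
    rw [hr]
    exact Nat.le_findGreatest (GT_finrank n B) ⟨B, hB, rfl⟩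
  have h2 : 2 ≤ Module.finrank ℂ W1 := hA2.trans (hmax A hA)
  have hn : 2 ≤ n := h2.trans (GT_finrank n W1)
  by_cases hC : C1 = ⊥
  · refine hHIL n N0 N hn hS ⟨C1, ?_⟩
    have hW : W1 = ⊤ := by
      have := hC1.sup
      rwa [hC, sup_bot_eq] at this
    rw [hW] at hC1
    exact hC1
  · exfalso
    have hsum : Module.finrank ℂ W1 + Module.finrank ℂ C1 = n := by
      have h := Submodule.finrank_sup_add_finrank_inf_eq W1 C1
      rw [hC1.sup, hC1.inf, finrank_top, finrank_bot, finrank_euclideanSpace_fin] at h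
      omega
    have hpos : 0 < Module.finrank ℂ C1 := by
      rw [Module.finrank_pos_iff]
      exact Submodule.nontrivial_iff_ne_bot.mpr hC
    exact hGLOB n N0 N hS W1 (by omega) (by omega)
      (hLOC n N0 N hS W1 C1 ⟨hC1, hmax, h2⟩ hC)

end Pool.Agent.Helper83.CB
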